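import Mathlib

namespace Pool.Agent.Results.MP_92d133_al.Ideal

/-- The principal two-sided ideal `S¹ a S¹`. -/
def jIdeal {S : Type} [Semigroup S] (a : S) : Set S :=
  {c | c = a ∨ (∃ x, c = x * a) ∨ (∃ y, c = a * y) ∨ ∃ x y, c = x * a * y}

/-- Green's preorder `a ≤_J b`. -/
def JLe {S : Type} [Semigroup S] (a b : S) : Prop := jIdeal a ⊆ jIdeal b

/-- Finite `J`-height: a uniform bound on the sizes of chains of `J`-classes. -/
def FiniteJHeight (S : Type) [Semigroup S] : Prop :=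
  ∃ N : ℕ, ∀ (n : ℕ) (f : Fin n → S),
    (∀ i j, i < j → JLe (f j) (f i) ∧ ¬ JLe (f i) (f j)) → n ≤ N

/-- A bi-ideal: a nonempty subsemigroup `B` with `B S B ⊆ B`. -/
def IsBiIdeal {S : Type} [Semigroup S] (B : Subsemigroup S) : Prop :=
  (B : Set S).Nonempty ∧ ∀ a ∈ B, ∀ s, ∀ b ∈ B, a * s * b ∈ B

/-- Matrix units: `0 = e₁₁`, `1 = e₁₂`, `2 = e₂₂`, `3 = zero`. -/
def nm (x y : Fin 4) : Fin 4 :=
  if x = 0 ∧ y = 0 then 0 else if x = 0 ∧ y = 1 then 1 else if x = 1 ∧ y = 2 then 1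
  else if x = 2 ∧ y = 2 then 2 else 3

lemma nm_assoc : ∀ x y z, nm (nm x y) z = nm x (nm y z) := by decide

/-- The bicyclic monoid times the matrix units. -/
@[ext] structure S where
  a : ℕ
  b : ℕ
  n : Fin 4

instance : Semigroup S where
  mul x y := ⟨x.a + (y.a - x.b), y.b + (x.b - y.a), nm x.n y.n⟩
  mul_assoc x y z := by
    refine S.ext ?_ ?_ (nm_assoc _ _ _)
    · show x.a + (y.a - x.b) + (z.a - (y.b + (x.b - y.a))) = x.a + (y.a + (z.a - y.b) - x.b)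
      omega
    · show z.b + (y.b + (x.b - y.a) - z.a) = z.b + (y.b - z.a) + (x.b - (y.a + (z.a - y.b)))
      omega

lemma mul_a (x y : S) : (x * y).a = x.a + (y.a - x.b) := rfl
lemma mul_b (x y : S) : (x * y).b = y.b + (x.b - y.a) := rfl
lemma mul_n (x y : S) : (x * y).n = nm x.n y.n := rfl

lemma JLe_of_mem {T : Type} [Semigroup T] {a b : T} (h : a ∈ jIdeal b) : JLe a b := by
  intro c hc
  rcases h with rfl | ⟨x, rfl⟩ | ⟨y, rfl⟩ | ⟨x, y, rfl⟩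
  · exact hc
  all_goals rcases hc with rfl | ⟨u, rfl⟩ | ⟨v, rfl⟩ | ⟨u, v, rfl⟩
  · exact Or.inr (Or.inl ⟨x, rfl⟩)
  · exact Or.inr (Or.inl ⟨u * x, by simp [mul_assoc]⟩)
  · exact Or.inr (Or.inr (Or.inr ⟨x, v, rfl⟩))
  · exact Or.inr (Or.inr (Or.inr ⟨u * x, v, by simp [mul_assoc]⟩))
  · exact Or.inr (Or.inr (Or.inl ⟨y, rfl⟩))
  · exact Or.inr (Or.inr (Or.inr ⟨u, y, by simp [mul_assoc]⟩))
  · exact Or.inr (Or.inr (Or.inl ⟨y * v, by simp [mul_assoc]⟩))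
  · exact Or.inr (Or.inr (Or.inr ⟨u, y * v, by simp [mul_assoc]⟩))
  · exact Or.inr (Or.inr (Or.inr ⟨x, y, rfl⟩))
  · exact Or.inr (Or.inr (Or.inr ⟨u * x, y, by simp [mul_assoc]⟩))
  · exact Or.inr (Or.inr (Or.inr ⟨x, y * v, by simp [mul_assoc]⟩))
  · exact Or.inr (Or.inr (Or.inr ⟨u * x, y * v, by simp [mul_assoc]⟩))

lemma sandwich : ∀ n : Fin 4, ∃ l r, nm (nm l n) r = n := by decide

lemma same (x y : S) (h : x.n = y.n) : JLe x y := by
  obtain ⟨l, r, hlr⟩ := sandwich y.n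
  refine JLe_of_mem (Or.inr (Or.inr (Or.inr ⟨⟨x.a, y.a, l⟩, ⟨y.b, x.b, r⟩, ?_⟩)))
  refine S.ext ?_ ?_ ?_
  · simp [mul_a, mul_b]
  · simp [mul_a, mul_b]
  · simp [mul_n, hlr, h]

lemma fin_S : FiniteJHeight S := by
  refine ⟨4, fun n f hf => ?_⟩
  have : Function.Injective fun i => (f i).n := by
    intro i j hij
    rcases lt_trichotomy i j with h | h | h
    · exact absurd (same _ _ hij) (hf i j h).2
    · exact h
    · exact absurd (same _ _ hij.symm) (hf j i h).2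
  simpa using Fintype.card_le_of_injective _ this

lemma nm_ne : ∀ x y : Fin 4, (x ≠ 0 ∨ y ≠ 0) → nm x y ≠ 0 := by decide
lemma nm_l : ∀ x y : Fin 4, x ≠ 0 → nm x 1 ≠ 1 ∧ nm (nm x 1) y ≠ 1 := by decide

def B : Subsemigroup S where
  carrier := {x | x.n ≠ 0}
  mul_mem' := fun ha _ => nm_ne _ _ (Or.inl ha)

def el (k : ℕ) : B := ⟨⟨k, 0, 1⟩, by show (1 : Fin 4) ≠ 0; decide⟩

lemma inf_B : ¬ FiniteJHeight B := by
  rintro ⟨N, hN⟩
  have := hN (N + 1) (fun i => el i) ?_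
  · omega
  intro i j hij
  have hij' : i.1 < j.1 := hij
  constructor
  · refine JLe_of_mem (Or.inr (Or.inr (Or.inl
      ⟨⟨⟨j.1 - i.1, 0, 2⟩, by show (2 : Fin 4) ≠ 0; decide⟩, Subtype.ext (S.ext ?_ ?_ ?_)⟩)))
    · show j.1 = i.1 + (j.1 - i.1 - 0)
      omega
    · show 0 = 0 + (0 - (j.1 - i.1))
      omega
    · show (1 : Fin 4) = nm 1 2
      decide
  · intro h
    rcases h (Or.inl rfl) with h | ⟨x, h⟩ | ⟨y, h⟩ | ⟨x, y, h⟩
    · have : i.1 = j.1 := congrArg (fun z : B => z.1.a) h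
      omega
    · exact (nm_l x.1.n 0 x.2).1 (congrArg (fun z : B => z.1.n) h).symm
    · have : i.1 = j.1 + (y.1.a - 0) := congrArg (fun z : B => z.1.a) h
      omega
    · exact (nm_l x.1.n y.1.n x.2).2 (congrArg (fun z : B => z.1.n) h).symm

theorem result : ∃ (S : Type) (_ : Semigroup S) (B : Subsemigroup S),
    FiniteJHeight S ∧ IsBiIdeal B ∧ (∀ s, ∀ b ∈ B, s * b ∈ B ∧ b * s ∈ B) ∧
      ¬ FiniteJHeight B := by
  refine ⟨S, inferInstance, B, fin_S, ⟨⟨_, (el 0).2⟩, ?_⟩, ?_, inf_B⟩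
  · intro a _ s b hb
    exact nm_ne _ _ (Or.inr hb)
  · intro s b hb
    exact ⟨nm_ne _ _ (Or.inr hb), nm_ne _ _ (Or.inl hb)⟩

end Pool.Agent.Results.MP_92d133_al.Ideal
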